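import Pool.Agent.Q201.CU.Neg

/-!
# A computation-universal cellular automaton without universal computers

The definitions (`CA`, `TuringDomain`, `Computes`, `ComputationUniversal`, `UniversalComputer`) are
in `Pool.Agent.Q201.CU.Defs`.
-/

set_option autoImplicit false

namespace Pool.Agent.Results.MP_8a6a08_lc.NoUniversalComputer

open Pool.Agent.Q201.CU

/-- Q1 of the problem: every cellular automaton which is computation-universal with respect to a
Turing domain has a universal computer with respect to it -/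
def Q1 : Prop :=
  ∀ (d : ℕ), 1 ≤ d → ∀ (S : Type) [Finite S] (A : CA d S) (T : Set (Cfg d S)) (ι : ℕ → Cfg d S),
    A.TuringDomain T ι → A.ComputationUniversal T ι → ∃ c, A.UniversalComputer T ι c

/-- Q1 is false; moreover one automaton on `ℤ` and one recursive sequence `ι` of configurations
serve for two Turing domains: for the first one no configuration at all is a universal computer,
and for the second one, which is just the range of `ι`, no finite configuration is; in both cases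
every partial recursive function is computed by a finite configuration. -/
theorem result : ¬ Q1 ∧
    ∃ (S : Type) (_ : Finite S) (A : CA 1 S) (ι : ℕ → Cfg 1 S),
      (∃ T, A.TuringDomain T ι ∧
        (∀ ψ : ℕ →. ℕ, Partrec ψ → ∃ c, (A.Supp c).Finite ∧ A.Computes T ι c ψ) ∧
        ∀ c, ¬ A.UniversalComputer T ι c) ∧
      A.TuringDomain (Set.range ι) ι ∧
        (∀ ψ : ℕ →. ℕ, Partrec ψ → ∃ c, (A.Supp c).Finite ∧ A.Computes (Set.range ι) ι c ψ) ∧
        ∀ c, (A.Supp c).Finite → ¬ A.UniversalComputer (Set.range ι) ι c := by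
  have main : ∃ (S : Type) (_ : Finite S) (A : CA 1 S) (ι : ℕ → Cfg 1 S),
      (∃ T, A.TuringDomain T ι ∧
        (∀ ψ : ℕ →. ℕ, Partrec ψ → ∃ c, (A.Supp c).Finite ∧ A.Computes T ι c ψ) ∧
        ∀ c, ¬ A.UniversalComputer T ι c) ∧
      A.TuringDomain (Set.range ι) ι ∧
        (∀ ψ : ℕ →. ℕ, Partrec ψ → ∃ c, (A.Supp c).Finite ∧ A.Computes (Set.range ι) ι c ψ) ∧
        ∀ c, (A.Supp c).Finite → ¬ A.UniversalComputer (Set.range ι) ι c := by
    obtain ⟨N, L, ins, hlast, hU⟩ := exists_univ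
    set T1 : Set (Cfg 1 (Cell (N + 3) (Fin (L + 1) ⊕ Bool))) :=
      {c | ∃ z : ℤ, z ≠ 0 ∧ c = up (dl N _ z)} with hT1
    set T2 : Set (Cfg 1 (Cell (N + 3) (Fin (L + 1) ⊕ Bool))) :=
      Set.range fun n : ℕ => up (dl N _ ((n : ℤ) + 1)) with hT2
    have a1 : ∀ c ∈ T1, ∃ z, c = up (dl N _ z) := by
      rintro c ⟨z, _, hz⟩
      exact ⟨z, hz⟩
    have a2 : ∀ c ∈ T2, ∃ z, c = up (dl N _ z) := by
      rintro c ⟨n, hn⟩
      exact ⟨_, hn.symm⟩
    have b1 : up (dl N _ 0) ∉ T1 := by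
      rintro ⟨z, hz, h⟩
      exact hz (dl_injective (up_injective h)).symm
    have b2 : up (dl N _ 0) ∉ T2 := by
      rintro ⟨n, h⟩
      have := dl_injective (up_injective h)
      omega
    have c1 : ∀ n : ℕ, up (dl N _ ((n : ℤ) + 1)) ∈ T1 := fun n => ⟨_, by omega, rfl⟩
    have c2 : ∀ n : ℕ, up (dl N _ ((n : ℤ) + 1)) ∈ T2 := fun n => ⟨n, rfl⟩
    exact ⟨Cell (N + 3) (Fin (L + 1) ⊕ Bool), inferInstance, aut ins,
      fun n => up (dl N _ ((n : ℤ) + 1)),
      ⟨T1, turingDomain ins T1 a1 c1, fun ψ hψ => computes L ins hlast hU T1 a1 b1 c1 ψ hψ,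
        no_universal ins⟩,
      turingDomain ins T2 a2 c2, fun ψ hψ => computes L ins hlast hU T2 a2 b2 c2 ψ hψ,
      no_finite_universal ins⟩
  refine ⟨fun h => ?_, main⟩
  obtain ⟨S, hS, A, ι, ⟨T, h1, h2, h3⟩, _⟩ := main
  obtain ⟨c, hc⟩ := h 1 le_rfl S A T ι h1 fun ψ hψ => by
    obtain ⟨c, _, hc⟩ := h2 ψ hψ
    exact ⟨c, hc⟩
  exact h3 c hc

end Pool.Agent.Results.MP_8a6a08_lc.NoUniversalComputer
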